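import Mathlib

set_option autoImplicit false

namespace Pool.Agent.Results.MP_2da57a_co.Counter

open Filter

/-- Completary multifuncoids of the form `(𝒫 U)^n`. -/
def Compl {U n : Type} (f : Set (n → Set U)) : Prop :=
  (∀ L₀ L₁ : n → Set U, (fun i => L₀ i ∪ L₁ i) ∈ f ↔
    ∃ c : n → Bool, (fun i => if c i = true then L₁ i else L₀ i) ∈ f) ∧
  ∀ L : n → Set U, (∃ i, L i = ∅) → L ∉ f

/-- The poset of completary multifuncoids, ordered by inclusion. -/
abbrev MF (U n : Type) : Type := {f : Set (n → Set U) // Compl f}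

/-- Atoms: minimal elements among the non-least elements (the least element is `∅`). -/
def Atom {U n : Type} (g : MF U n) : Prop := g.1 ≠ ∅ ∧ ∀ h : MF U n, h ≤ g → h.1 ≠ ∅ → h = g

theorem up {U n : Type} {f : Set (n → Set U)} (hf : Compl f) {L M : n → Set U} (h : L ∈ f)
    (hLM : ∀ i, L i ⊆ M i) : M ∈ f := by
  have := (hf.1 L M).2 ⟨fun _ => false, by simpa using h⟩
  rwa [show (fun i => L i ∪ M i) = M from funext fun i => Set.union_eq_right.2 (hLM i)] at this

noncomputable def sz (L : ℕ → Set ℕ) (i : ℕ) : ℕ := (L i ∩ Set.Iic i).ncard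

theorem fin (A : Set ℕ) (i : ℕ) : (A ∩ Set.Iic i).Finite := (Set.finite_Iic i).inter_of_right _

def F : Set (ℕ → Set ℕ) := {L | (∀ i, 0 < sz L i) ∧ Tendsto (sz L) atTop atTop}

theorem F_compl : Compl F := by
  classical
  refine ⟨fun A B => ⟨fun h => ?_, fun ⟨c, h⟩ => ?_⟩, ?_⟩
  · refine ⟨fun i => decide (sz A i ≤ sz B i), ?_⟩
    have key : ∀ i, sz (fun i => A i ∪ B i) i ≤
        2 * sz (fun i => if decide (sz A i ≤ sz B i) = true then B i else A i) i := by
      intro i
      have h1 : sz (fun i => A i ∪ B i) i ≤ sz A i + sz B i := by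
        unfold sz
        rw [Set.union_inter_distrib_right]
        exact Set.ncard_union_le _ _
      by_cases h2 : sz A i ≤ sz B i
      · have : sz (fun i => if decide (sz A i ≤ sz B i) = true then B i else A i) i = sz B i := by
          conv_lhs => unfold sz
          simp only [decide_eq_true_eq]
          rw [if_pos (by exact h2)]; rfl
        omega
      · have : sz (fun i => if decide (sz A i ≤ sz B i) = true then B i else A i) i = sz A i := by
          conv_lhs => unfold sz
          simp only [decide_eq_true_eq]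
          rw [if_neg (by exact h2)]; rfl
        omega
    beta_reduce
    refine ⟨fun i => by have := key i; have := h.1 i; omega, ?_⟩
    refine tendsto_atTop.2 fun b => ((tendsto_atTop.1 h.2) (2 * b)).mono fun i hi => ?_
    have := key i; omega
  · have key : ∀ i, sz (fun i => if c i = true then B i else A i) i ≤ sz (fun i => A i ∪ B i) i := by
      intro i
      refine Set.ncard_le_ncard (Set.inter_subset_inter_left _ ?_) (fin _ _)
      dsimp only
      split_ifs
      exacts [Set.subset_union_right, Set.subset_union_left]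
    exact ⟨fun i => (h.1 i).trans_le (key i), tendsto_atTop_mono key h.2⟩
  · rintro L ⟨i, hi⟩ h
    have := h.1 i
    simp [sz, hi] at this

theorem inter {U n : Type} (g : MF U n) (hg : Atom g) {L M : n → Set U} (hL : L ∈ g.1)
    (hM : M ∈ g.1) : (fun i => M i ∩ L i) ∈ g.1 := by
  let h : MF U n := ⟨{M | (fun i => M i ∩ L i) ∈ g.1}, fun A B => by
    simp only [Set.mem_ofPred_eq, Set.union_inter_distrib_right]
    rw [g.2.1]
    refine exists_congr fun c => ?_
    rw [show (fun i => if c i = true then B i ∩ L i else A i ∩ L i) =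
      fun i => (if c i = true then B i else A i) ∩ L i from funext fun i => by split_ifs <;> rfl],
    fun A ⟨i, hi⟩ hA => g.2.2 _ ⟨i, by simp [hi]⟩ hA⟩
  have : h = g := hg.2 h (fun A hA => up g.2 hA fun i => Set.inter_subset_left)
    (Set.Nonempty.ne_empty ⟨L, by simpa [h] using hL⟩)
  rw [← this] at hM
  exact hM

theorem no_atom (g : MF ℕ ℕ) (hg : Atom g) (hF : g.1 ⊆ F) : False := by
  classical
  obtain ⟨L₀, hL₀⟩ := Set.nonempty_iff_ne_empty.2 hg.1
  have pt : ∀ i, ∃ x, ∀ L ∈ g.1, x ∈ L i := by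
    intro i
    by_contra hn
    push Not at hn
    have : ∀ k, ∃ L ∈ g.1, ∀ x < k, x ∉ L i := by
      intro k
      induction k with
      | zero => exact ⟨L₀, hL₀, by simp⟩
      | succ k ih =>
        obtain ⟨L, hL, h⟩ := ih
        obtain ⟨M, hM, h'⟩ := hn k
        refine ⟨_, inter g hg hL hM, fun x hx hx' => ?_⟩
        rcases Nat.lt_succ_iff_lt_or_eq.1 hx with hx | rfl
        exacts [h x hx hx'.2, h' hx'.1]
    obtain ⟨L, hL, h⟩ := this (i + 1)
    obtain ⟨x, hx⟩ := Set.nonempty_of_ncard_ne_zero ((hF hL).1 i).ne'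
    exact h x (Nat.lt_succ_of_le hx.2) hx.1
  choose x hx using pt
  obtain ⟨c, hc⟩ := (g.2.1 (fun i => {x i}) fun i => {x i}ᶜ).1
    (up g.2 hL₀ fun i => by simp)
  have hc' : ∀ i, c i = false := fun i => by
    by_contra h
    have := hx i _ hc
    simp [Bool.not_eq_false _ ▸ h] at this
  simp only [hc', Bool.false_eq_true, if_false] at hc
  obtain ⟨i, hi⟩ := ((tendsto_atTop.1 (hF hc).2) 2).exists
  have : sz (fun i => {x i}) i ≤ 1 :=
    (Set.ncard_le_ncard Set.inter_subset_left (Set.finite_singleton _)).trans (by simp)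
  omega

theorem result : ∃ (U n : Type) (f : MF U n), f.1 ≠ ∅ ∧ (∀ g : MF U n, Atom g → ¬ g ≤ f) ∧
    ¬ IsLUB {g : MF U n | Atom g ∧ g ≤ f} f := by
  have hne : F ≠ ∅ := Set.Nonempty.ne_empty ⟨fun _ => Set.univ, by
    have : sz (fun _ => Set.univ) = fun i => i + 1 := funext fun i => by simp [sz]
    rw [F, Set.mem_ofPred_eq, this]
    exact ⟨fun i => i.succ_pos, tendsto_add_atTop_nat 1⟩⟩
  refine ⟨ℕ, ℕ, ⟨F, F_compl⟩, hne, fun g hg h => no_atom g hg h, fun h => ?_⟩
  have : (⟨F, F_compl⟩ : MF ℕ ℕ) ≤ ⟨∅, by simp [Compl]⟩ :=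
    h.2 fun g hg => (no_atom g hg.1 hg.2).elim
  exact hne (Set.subset_empty_iff.1 this)

end Pool.Agent.Results.MP_2da57a_co.Counter
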